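import Mathlib
import Pool.Agent.Lib.helper22.FGp

namespace Pool.Agent.H.MP_874ce0_al

open FreeGroup (invRev)
open Pool.Agent.Lib.FGp

section
variable {X : Type}

def Rel (w : List (X × Bool)) (x y : FreeMonoid (X × Bool)) : Prop :=
  (∃ u : List (X × Bool), x = .ofList (u ++ invRev u ++ u) ∧ y = .ofList u) ∨
  (∃ u v : List (X × Bool), x = .ofList ((u ++ invRev u) ++ (v ++ invRev v)) ∧ y = .ofList ((v ++ invRev v) ++ (u ++ invRev u))) ∨
  (x = .ofList w ∧ y = 1)

abbrev Inv (w : List (X × Bool)) := (conGen (Rel w)).Quotient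

def q (w u : List (X × Bool)) : Inv w := (conGen (Rel w)).mk' (.ofList u)

variable {w : List (X × Bool)}

theorem q_nil : q w [] = 1 := rfl
theorem q_app (u v) : q w (u ++ v) = q w u * q w v := rfl
theorem w1 (u) : q w u * q w (invRev u) * q w u = q w u := (Con.eq _).2 (.of _ _ (.inl ⟨u, rfl, rfl⟩))
theorem w2 (u v) : q w u * q w (invRev u) * (q w v * q w (invRev v)) = q w v * q w (invRev v) * (q w u * q w (invRev u)) :=
  (Con.eq _).2 (.of _ _ (.inr (.inl ⟨u, v, rfl, rfl⟩)))
theorem w3 : q w w = 1 := (Con.eq _).2 (.of _ _ (.inr (.inr ⟨rfl, rfl⟩)))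

theorem ru {u t} (h : q w u * t = 1) : q w u * q w (invRev u) = 1 := by
  rw [← mul_one (_ * _), ← h, ← mul_assoc, w1]

theorem absorb {x : Inv w} {v t} (h : x * q w v * t = 1) : x * q w v * q w (invRev v) = x := by
  obtain ⟨u, rfl⟩ := Con.mk'_surjective x
  change q w u.toList * _ * _ = 1 at h
  change q w u.toList * _ * _ = q w u.toList
  have a := ru (u := u.toList ++ v) h
  have b := w2 (w := w) (invRev u.toList) v
  rw [FreeGroup.invRev_invRev] at b
  rw [FreeGroup.invRev_append, q_app, q_app] at a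
  calc _ = q w u.toList * (q w (invRev u.toList) * q w u.toList * (q w v * q w (invRev v))) := by
        conv_lhs => rw [← w1 u.toList]
        simp only [mul_assoc]
    _ = q w u.toList * q w v * (q w (invRev v) * q w (invRev u.toList)) * q w u.toList := by rw [b]; simp only [mul_assoc]
    _ = _ := by rw [a, one_mul]

theorem split {Y : List (List (X × Bool))} {v} (h : q w ((Y.flatMap fun y => y ++ invRev y) ++ v) = 1) :
    q w v = 1 ∧ ∀ y ∈ Y, q w y * q w (invRev y) = 1 := by
  induction Y with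
  | nil => exact ⟨h, by simp⟩
  | cons y Y ih =>
    rw [List.flatMap_cons, List.append_assoc, List.append_assoc, q_app] at h
    have := ru h
    rw [q_app, ← mul_assoc, this, one_mul] at h
    exact ⟨(ih h).1, List.forall_mem_cons.2 ⟨this, (ih h).2⟩⟩

variable {C : Type} (δ : C → X × Bool → Option C)

def run (c : C) (u : List (X × Bool)) : Option C := u.foldl (fun o x => o.bind (δ · x)) (some c)

theorem run_nil (c) : run δ c [] = some c := rfl

theorem run_snoc (c u x) : run δ c (u ++ [x]) = (run δ c u).bind (δ · x) := by simp [run]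

theorem run_app (c u v) : run δ c (u ++ v) = (run δ c u).bind (run δ · v) := by
  induction v using List.reverseRecOn with
  | nil => simp [run]
  | append_singleton v x ih => simp only [← List.append_assoc, run_snoc, ih, Option.bind_assoc]

theorem run_one (c x) : run δ c [x] = δ c x := rfl

theorem run_cons (c x v) : run δ c (x :: v) = (δ c x).bind (run δ · v) := run_app δ c [x] v

variable {δ} {V : C → Prop} (hV : ∀ c x c', V c → δ c x = some c' → V c' ∧ δ c' (x.1, !x.2) = some c)
include hV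

theorem run_inv {c u c'} (h : V c) (k : run δ c u = some c') : V c' ∧ run δ c' (invRev u) = some c := by
  induction u generalizing c with
  | nil => cases k; exact ⟨h, rfl⟩
  | cons x u ih =>
    rw [run_cons, Option.bind_eq_some_iff] at k
    obtain ⟨d, a, b⟩ := k
    obtain ⟨e, f⟩ := hV _ _ _ h a
    rw [← List.singleton_append, FreeGroup.invRev_append, run_app, (ih e b).2]
    exact ⟨(ih e b).1, f⟩

theorem run_idem {c} (h : V c) (u) : run δ c (u ++ invRev u) = (run δ c u).map fun _ => c := by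
  rw [run_app]
  cases k : run δ c u
  exacts [rfl, (run_inv hV h k).2]

theorem sound (hw : ∀ c, V c → run δ c w = some c) {u v} (h : q w u = q w v) {c} (hc : V c) : run δ c u = run δ c v := by
  let K : Con (FreeMonoid (X × Bool)) :=
    { r := fun u v => ∀ c, V c → run δ c u.toList = run δ c v.toList
      iseqv := ⟨fun _ _ _ => rfl, fun h c k => (h c k).symm, fun h k c l => (h c l).trans (k c l)⟩
      mul' := fun {u v _ _} h k c l => by
        simp only [FreeMonoid.toList_mul, run_app, h c l]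
        cases e : run δ c v.toList
        exacts [rfl, k _ (run_inv hV l e).1] }
  refine (show conGen (Rel w) ≤ K from Con.conGen_le.2 fun x y h => ?_) ((Con.eq _).1 h) c hc
  intro c hc
  obtain ⟨u, a, b⟩ | ⟨u, v, a, b⟩ | ⟨a, b⟩ := h <;> rw [a, b] <;> simp only [FreeMonoid.toList_ofList]
  · rw [run_app, run_idem hV hc]
    cases e : run δ c u
    exacts [rfl, e]
  · rw [run_app, run_app δ c (v ++ _), run_idem hV hc, run_idem hV hc]
    cases e : run δ c u <;> cases f : run δ c v <;> simp [run_idem hV hc, e, f]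
  · exact hw c hc

end

section
variable {A S P : Type} (o : P) (ρ : Option S → A × Bool → P → P) (Tr : S → A × Bool → S → Prop) (Re : Option S → P → S → Prop)

def E (κ : Option S) (h : P) (l : A × Bool) : Prop :=
  (∃ s t, Re κ h s ∧ Tr s l t) ∨ ∃ s t, Re κ (ρ κ l h) s ∧ Tr s (l.1, !l.2) t

open Classical in
noncomputable def dl : List (Option S × P × Option S) → (A ⊕ S) × Bool → Option (List (Option S × P × Option S))
  | [], (.inr s, true) => some [(some s, o, none)]
  | [], _ => none
  | f :: c, (.inl a, b) => if f.2.2 = none ∧ E ρ Tr Re f.1 f.2.1 (a, b) then some ((f.1, ρ f.1 (a, b) f.2.1, none) :: c) else none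
  | f :: c, (.inr s, true) => if f.2.2 = some s then some ((f.1, f.2.1, none) :: c) else some ((some s, o, none) :: f :: c)
  | f :: c, (.inr s, false) => if f.2.2 = none ∧ Re f.1 f.2.1 s then
      if f.1 = some s ∧ f.2.1 = o then some c else some ((f.1, f.2.1, some s) :: c) else none

def Valid : List (Option S × P × Option S) → Prop
  | [] => True
  | f :: c => (∀ s, f.2.2 = some s → Re f.1 f.2.1 s ∧ ¬(f.1 = some s ∧ f.2.1 = o)) ∧
    (∀ g ∈ c.head?, ∀ s, f.1 = some s → g.2.2 ≠ some s) ∧ Valid c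

variable {o ρ Tr Re}

theorem dl_inv (h1 : ∀ s, Re (some s) o s) (h4 : ∀ κ l h, ρ κ (l.1, !l.2) (ρ κ l h) = h) (c x c') (h : Valid o Re c)
    (k : dl o ρ Tr Re c x = some c') : Valid o Re c' ∧ dl o ρ Tr Re c' (x.1, !x.2) = some c := by
  obtain ⟨a | s, b⟩ := x
  · obtain _ | ⟨⟨κ, p, t⟩, c⟩ := c
    · cases k
    simp only [dl, Option.ite_none_right_eq_some, Option.some.injEq] at k
    obtain ⟨⟨rfl, e⟩, rfl⟩ := k
    refine ⟨⟨by simp, h.2⟩, ?_⟩
    have := h4 κ (a, b) p
    simp only [dl, true_and, this, Option.ite_none_right_eq_some, and_true]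
    simpa [E, this, or_comm] using e
  obtain _ | ⟨⟨κ, p, t⟩, c⟩ := c <;> cases b
  · cases k
  · cases k
    simp [Valid, dl, h1]
  · simp only [dl, Option.ite_none_right_eq_some] at k
    obtain ⟨⟨rfl, e⟩, k⟩ := k
    split_ifs at k with f <;> cases k
    · obtain ⟨rfl, rfl⟩ := f
      refine ⟨h.2.2, ?_⟩
      obtain _ | ⟨g, c⟩ := c'
      · rfl
      · simp [dl, h.2.1 g rfl s rfl]
    · exact ⟨⟨by rintro _ ⟨⟩; exact ⟨e, f⟩, h.2⟩, by simp [dl]⟩
  · simp only [dl] at k
    split_ifs at k with f <;> cases k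
    · cases f
      exact ⟨⟨by simp, h.2⟩, by simp [dl, h.1 s rfl]⟩
    · exact ⟨⟨by simp, by simpa using f, h⟩, by simp [dl, h1]⟩

theorem dl_up (h1 : ∀ s, Re (some s) o s) {c} (h : Valid o Re c) (s) :
    ∃ κ p c', dl o ρ Tr Re c (.inr s, true) = some ((κ, p, none) :: c') ∧ Re κ p s := by
  obtain _ | ⟨⟨κ, p, t⟩, c⟩ := c
  · exact ⟨_, _, _, rfl, h1 s⟩
  by_cases e : t = some s
  · exact ⟨κ, p, c, by simp [dl, e], (h.1 s e).1⟩
  · exact ⟨_, _, _, if_neg e, h1 s⟩

theorem dl_path (h2 : ∀ κ h s l t, Re κ h s → Tr s l t → Re κ (ρ κ l h) t) {κ p c s u t} (h : Re κ p s) (k : t ∈ Path Tr s u) :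
    run (dl o ρ Tr Re) ((κ, p, none) :: c) (u.map (Prod.map .inl id)) = some ((κ, u.foldl (fun h l => ρ κ l h) p, none) :: c) ∧
      Re κ (u.foldl (fun h l => ρ κ l h) p) t := by
  induction u using List.reverseRecOn generalizing t with
  | nil => cases k; exact ⟨rfl, h⟩
  | append_singleton u l ih =>
    obtain ⟨r, a, b⟩ := (path_snoc ..).1 k
    rw [List.map_append, List.map_singleton, run_snoc, (ih a).1, List.foldl_append]
    exact ⟨if_pos ⟨rfl, .inl ⟨_, _, (ih a).2, b⟩⟩, h2 _ _ _ _ _ (ih a).2 b⟩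

theorem dl_down {κ p c s} : (dl o ρ Tr Re ((κ, p, none) :: c) (.inr s, false)).isSome ↔ Re κ p s := by
  simp only [dl]
  split_ifs <;> simp_all

theorem dl_rel (h1 : ∀ s, Re (some s) o s) (h2 : ∀ κ h s l t, Re κ h s → Tr s l t → Re κ (ρ κ l h) t)
    (h4 : ∀ κ l h, ρ κ (l.1, !l.2) (ρ κ l h) = h) {z r} (hz : z ∈ Path Tr z r)
    (h3 : ∀ κ h, Re κ h z → r.foldl (fun h l => ρ κ l h) h = h) {Y : List (List ((A ⊕ S) × Bool))}
    (hY : ∀ y ∈ Y, (∃ s, y = [(.inr s, true)]) ∨ ∃ s l t, Tr s l t ∧ y = [(.inr s, true), Prod.map .inl id l, (.inr t, false)])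
    (c) (h : Valid o Re c) : run (dl o ρ Tr Re) c ((Y.flatMap fun y => y ++ invRev y) ++
      ((.inr z, true) :: r.map (Prod.map .inl id) ++ [(.inr z, false)])) = some c := by
  induction Y with
  | nil =>
    obtain ⟨κ, p, c', a, b⟩ := dl_up (ρ := ρ) (Tr := Tr) h1 h z
    rw [List.flatMap_nil, List.nil_append, run_snoc, run_cons, a, Option.bind_some, (dl_path h2 b hz).1, h3 _ _ b]
    exact (dl_inv h1 h4 _ _ _ h a).2
  | cons y Y ih =>
    rw [List.flatMap_cons, List.append_assoc, run_app, run_idem (dl_inv h1 h4) h]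
    suffices (run (dl o ρ Tr Re) c y).isSome by
      obtain ⟨d, e⟩ := Option.isSome_iff_exists.1 this
      rw [e]
      exact ih fun y hy => hY y (.tail _ hy)
    obtain ⟨s, rfl⟩ | ⟨s, l, t, k, rfl⟩ := hY y (.head _)
    · obtain ⟨κ, p, c', a, b⟩ := dl_up (ρ := ρ) (Tr := Tr) h1 h s
      rw [run_one, a]
      rfl
    · obtain ⟨κ, p, c', a, b⟩ := dl_up (ρ := ρ) (Tr := Tr) h1 h s
      have := dl_path (o := o) (c := c') (u := [] ++ [l]) h2 b ((path_snoc ..).2 ⟨s, rfl, k⟩)
      rw [run_cons, a, Option.bind_some, run_cons, show dl o ρ Tr Re ((κ, p, none) :: c') (Prod.map .inl id l) = _ from this.1, Option.bind_some, run_one, dl_down]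
      exact this.2

theorem pr_dl [Finite A] [Finite S] [Primcodable A] [Primcodable S] [Primcodable P] (hρ : ∀ κ l, Primrec (ρ κ l))
    (hR : ∀ κ s, PrimrecPred (Re κ · s)) : Primrec₂ (dl o ρ Tr Re) := by
  classical
  have e1 : ∀ s : Option S, PrimrecPred fun p : (Option S × P × Option S) × List (Option S × P × Option S) => p.1.2.2 = s := fun s =>
    Primrec.eq.comp (Primrec.snd.comp (Primrec.snd.comp .fst)) (.const s)
  have sw : Primrec fun p : (Option S × P × Option S) × List (Option S × P × Option S) => (p.1.2.1, p.1.1) :=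
    (Primrec.fst.comp (Primrec.snd.comp .fst)).pair (Primrec.fst.comp .fst)
  have st : ∀ s : Option S, Primrec fun p : (Option S × P × Option S) × List (Option S × P × Option S) => some ((p.1.1, p.1.2.1, s) :: p.2) :=
    fun s => Primrec.option_some.comp (Primrec.list_cons.comp ((Primrec.fst.comp .fst).pair
      ((Primrec.fst.comp (Primrec.snd.comp .fst)).pair (.const s))) .snd)
  refine fin_arg fun x => ?_
  suffices Primrec fun p : (Option S × P × Option S) × List (Option S × P × Option S) => dl o ρ Tr Re (p.1 :: p.2) x from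
    (Primrec.list_casesOn .id (.const (dl o ρ Tr Re [] x)) (this.comp .snd).to₂).of_eq fun c => by cases c <;> rfl
  obtain ⟨a | s, b⟩ := x
  · refine Primrec.ite ((e1 _).and ((fin_pred (f := fun h κ => E ρ Tr Re κ h (a, b)) fun κ => ?_).comp sw)) (Primrec.option_some.comp
      (Primrec.list_cons.comp ((Primrec.fst.comp .fst).pair (((fin_arg (f := fun h κ => ρ κ (a, b) h) fun κ => hρ κ _).comp
        (Primrec.fst.comp (Primrec.snd.comp .fst)) (Primrec.fst.comp .fst)).pair (.const none))) .snd)) (.const none)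
    exact (fin_ex fun s => fin_ex fun t => (hR κ s).and (pp_const _)).or
      (fin_ex fun s => fin_ex fun t => ((hR κ s).comp (hρ κ _)).and (pp_const _))
  cases b
  · exact Primrec.ite ((e1 _).and ((fin_pred (f := fun h κ => Re κ h s) fun κ => hR κ s).comp sw)) (Primrec.ite
      ((Primrec.eq.comp (Primrec.fst.comp .fst) (.const _)).and (Primrec.eq.comp (Primrec.fst.comp (Primrec.snd.comp .fst)) (.const _)))
      (Primrec.option_some.comp .snd) (st _)) (.const none)
  · exact Primrec.ite (e1 _) (st _) (Primrec.option_some.comp (Primrec.list_cons.comp (.const _) (Primrec.list_cons.comp .fst .snd)))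

end

end Pool.Agent.H.MP_874ce0_al
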