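import Mathlib
import Pool.Agent.H.MP_874ce0_al.A

namespace Pool.Agent.H.MP_874ce0_al

open FreeGroup (invRev)
open Pool.Agent.Lib.FGp

variable {A B Q : Type}

def pi (r v : List (A × Bool)) : PresentedGroup {FreeGroup.mk r} := PresentedGroup.mk _ (.mk v)

theorem pi_app (r u v : List (A × Bool)) : pi r (u ++ v) = pi r u * pi r v := by rw [pi, ← FreeGroup.mul_mk, map_mul]; rfl

def Tr' (Tr : Q → A × Bool → Q → Prop) : Option Q → A × Bool → Option Q → Prop
  | none, _, t => t = none
  | some p, l, t => ∃ p', t = some p' ∧ Tr p l p'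

def rho (ι : A → B) (α : A × Bool → FreeGroup B → FreeGroup B) : Option (Option Q) → A × Bool → FreeGroup B → FreeGroup B
  | some (some _), l, h => h * .mk [Prod.map ι id l]
  | _, l, h => α l h

def Re (ι : A → B) (Tr : Q → A × Bool → Q → Prop) (I : FreeGroup B → Option Q → Prop) :
    Option (Option Q) → FreeGroup B → Option Q → Prop
  | none, h, s => I h s
  | some none, _, s => s = none
  | some (some p), h, s => ∃ p' u, s = some p' ∧ p' ∈ Path Tr p u ∧ h = .mk (u.map (Prod.map ι id))

def lf (u : List (A × Bool)) : List ((A ⊕ Option Q) × Bool) := u.map (Prod.map .inl id)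

theorem lf_app (u v : List (A × Bool)) : lf (Q := Q) (u ++ v) = lf u ++ lf v := List.map_append

theorem main [Finite A] [Finite B] [Finite Q] [Primcodable A] [Primcodable B] [Primcodable Q] [DecidableEq B]
    (r : List (A × Bool)) (ι : A → B) (j : B → A) (hj : ∀ a, j (ι a) = a) (α : A × Bool → FreeGroup B → FreeGroup B)
    (pα : ∀ l, Primrec (α l)) (hα : ∀ l h, α (l.1, !l.2) (α l h) = h) (hr : ∀ h, r.foldl (fun h l => α l h) h = h)
    (e : FreeGroup B → PresentedGroup {FreeGroup.mk r}) (e1 : e 1 = 1) (e2 : ∀ l h, e (α l h) = e h * pi r [l])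
    (Tr : Q → A × Bool → Q → Prop) (loc : ∀ s l s' l' s'', Tr s l s' → Tr s' l' s'' → l.1 = l'.1 → l.2 = l'.2) (q0 f : Q)
    (hu : ¬ ComputablePred fun y => ∃ v, f ∈ Path Tr q0 v ∧ pi r v = pi r y) :
    ∃ w : List ((A ⊕ Option Q) × Bool), ComputablePred (fun x => q w x = 1) ∧
      ¬ ComputablePred fun p : List _ × List _ => q w p.1 = q w p.2 := by
  classical
  obtain ⟨Y, hY⟩ : ∃ Y : List (List ((A ⊕ Option Q) × Bool)), ∀ y, y ∈ Y ↔ (∃ s, y = [(.inr s, true)]) ∨
      ∃ s l t, Tr' Tr s l t ∧ y = [(.inr s, true), Prod.map .inl id l, (.inr t, false)] :=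
    ⟨(List.finite_length_le _ 3).toFinset.toList.filter fun y => (∃ s, y = [(.inr s, true)]) ∨
      ∃ s l t, Tr' Tr s l t ∧ y = [(.inr s, true), Prod.map .inl id l, (.inr t, false)], fun y => by
        rw [List.mem_filter, decide_eq_true_iff, and_iff_right_iff_imp]
        rintro (⟨s, rfl⟩ | ⟨s, l, t, -, rfl⟩) <;> simp⟩
  let w := (Y.flatMap fun y => y ++ invRev y) ++ ((.inr none, true) :: lf r ++ [(.inr none, false)])
  let U : Option Q → Inv w := fun s => q w [(.inr s, true)]
  let D : Option Q → Inv w := fun s => q w [(.inr s, false)]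
  have sp := split (w3 (w := w))
  have s1 : ∀ s, U s * D s = 1 := fun s => sp.2 _ ((hY _).2 (.inl ⟨s, rfl⟩))
  have s2 : ∀ s l t, Tr' Tr s l t → U s * q w (lf [l]) * D t * (U t * q w (lf [(l.1, !l.2)]) * D s) = 1 :=
    fun s l t h => sp.2 _ ((hY _).2 (.inr ⟨s, l, t, h, rfl⟩))
  have aD : ∀ {x s t}, x * D s * t = 1 → x * D s * U s = x := fun h => absorb h
  let ψ0 : FreeGroup A →* (Inv w)ˣ := FreeGroup.lift fun a => ⟨U none * q w (lf [(a, true)]) * D none,
    U none * q w (lf [(a, false)]) * D none, s2 none (a, true) _ rfl, s2 none (a, false) _ rfl⟩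
  have p0 : ∀ u, (ψ0 (.mk u)).1 * U none = U none * q w (lf u) := fun u => by
    induction u using List.reverseRecOn with
    | nil => exact (one_mul _).trans (mul_one _).symm
    | append_singleton u l ih =>
      have : (ψ0 (.mk [l])).1 = U none * q w (lf [l]) * D none := by obtain ⟨x, _ | _⟩ := l <;> simp [ψ0]
      rw [← FreeGroup.mul_mk, map_mul, Units.val_mul, this, mul_assoc, aD (s2 none l _ rfl), ← mul_assoc, ih, lf_app, q_app, mul_assoc]
  let ψ : PresentedGroup {FreeGroup.mk r} →* (Inv w)ˣ := QuotientGroup.lift _ ψ0 (Subgroup.normalClosure_le_normal (by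
    rintro _ rfl
    refine Units.ext ?_
    rw [← mul_one (Units.val _), ← s1 none, ← mul_assoc, p0]
    exact sp.1))
  have p1 : ∀ u, (ψ (pi r u)).1 * U none = U none * q w (lf u) := p0
  have pa : ∀ p p' u, p' ∈ Path Tr p u → ∃ t, U (some p) * q w (lf u) * D (some p') * t = 1 := fun p p' u h => by
    induction u using List.reverseRecOn generalizing p' with
    | nil => cases h; exact ⟨1, by simp [lf, q_nil, s1]⟩
    | append_singleton u l ih =>
      obtain ⟨s, a, b⟩ := (path_snoc ..).1 h
      obtain ⟨t, c⟩ := ih s a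
      refine ⟨U (some p') * q w (lf [(l.1, !l.2)]) * D (some s) * t, ?_⟩
      calc _ = U (some p) * q w (lf u) * D (some s) * U (some s) * q w (lf [l]) * D (some p') *
          (U (some p') * q w (lf [(l.1, !l.2)]) * D (some s) * t) := by rw [aD c, lf_app, q_app, ← mul_assoc (U _)]
        _ = U (some p) * q w (lf u) * D (some s) * (U (some s) * q w (lf [l]) * D (some p') *
          (U (some p') * q w (lf [(l.1, !l.2)]) * D (some s))) * (U (some s) * D (some s)) * t := by simp only [mul_assoc, s1, one_mul]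
        _ = _ := by rw [s2 (some s) l (some p') ⟨_, rfl, b⟩, s1, mul_one, mul_one, c]
  have tw : ∀ p p' u, p' ∈ Path Tr p u → (FreeGroup.mk (u.map (Prod.map ι id))).toWord = u.map (Prod.map ι id) := fun p p' u h =>
    FreeGroup.IsReduced.reduce_eq (List.isChain_map _ |>.2 ((path_red loc h).imp fun a b k l => k (by simpa [hj] using congrArg j l)))
  have jj : ∀ u : List (A × Bool), (u.map (Prod.map ι id)).map (Prod.map j id) = u := fun u => by
    simp [Prod.map, Function.comp_def, hj]
  have h1 : ∀ I s, Re ι Tr I (some s) 1 s := by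
    rintro I (_ | p)
    exacts [rfl, ⟨p, [], rfl, rfl, rfl⟩]
  have h2 : ∀ I, (∀ h s l t, I h s → Tr' Tr s l t → I (α l h) t) →
      ∀ κ h s l t, Re ι Tr I κ h s → Tr' Tr s l t → Re ι Tr I κ (rho ι α κ l h) t := by
    rintro I hI (_ | _ | p) h s l t a b
    · exact hI _ _ _ _ a b
    · cases a; exact b
    · obtain ⟨p', u, rfl, a, rfl⟩ := a
      obtain ⟨p'', rfl, b⟩ := b
      exact ⟨p'', u ++ [l], rfl, (path_snoc ..).2 ⟨_, a, b⟩, by simp [rho]⟩
  have h4 : ∀ (κ : Option (Option Q)) l h, rho ι α κ (l.1, !l.2) (rho ι α κ l h) = h := by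
    rintro (_ | _ | p) l h
    exacts [hα l h, hα l h, (mul_assoc ..).trans (mul_eq_left.2 (mul_inv_cancel (FreeGroup.mk [Prod.map ι id l])))]
  have h3 : ∀ I κ h, Re ι Tr I κ h none → r.foldl (fun h l => rho ι α κ l h) h = h := by
    rintro I (_ | _ | p) h a
    exacts [hr h, hr h, by obtain ⟨_, _, ⟨⟩, _⟩ := a]
  have hz : ∀ u, none ∈ Path (Tr' Tr) none u := fun u => by
    induction u using List.reverseRecOn with
    | nil => rfl
    | append_singleton u l ih => exact (path_snoc ..).2 ⟨_, ih, rfl⟩
  have so : ∀ I, (∀ h s l t, I h s → Tr' Tr s l t → I (α l h) t) → ∀ u v, q w u = q w v → ∀ c, Valid 1 (Re ι Tr I) c →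
      run (dl 1 (rho ι α) (Tr' Tr) (Re ι Tr I)) c u = run (dl 1 (rho ι α) (Tr' Tr) (Re ι Tr I)) c v := fun I hI u v h c =>
    sound (dl_inv (h1 I) h4) (dl_rel (h1 I) (h2 I hI) h4 (hz r) (h3 I) fun y => (hY y).1) h
  refine ⟨w, ?_, fun h => hu ?_⟩
  · let R := Re ι Tr fun _ _ => False
    let V : Option (Option Q) → FreeGroup B → Inv w
      | none, _ => 1
      | some none, h => (ψ (e h)).1 * U none
      | some (some p), h => U (some p) * q w (lf (h.toWord.map (Prod.map j id)))
    let ev : List (Option (Option Q) × FreeGroup B × Option (Option Q)) → Inv w := fun c =>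
      c.foldr (fun f x => x * (V f.1 f.2.1 * f.2.2.elim 1 D)) 1
    have v1 : ∀ s, V (some s) 1 = U s := by rintro (_ | p) <;> simp [V, e1, lf, q_nil]
    have v2 : ∀ κ h s, R κ h s → ∃ t, V κ h * D s * t = 1 := by
      rintro (_ | _ | p) h s a
      · exact a.elim
      · cases a
        exact ⟨(ψ (e h))⁻¹.1, by simp [V, mul_assoc, s1]⟩
      · obtain ⟨p', u, rfl, a, rfl⟩ := a
        simpa only [V, tw _ _ _ a, jj] using pa _ _ _ a
    have v3 : ∀ κ h l s t, R κ h s → Tr' Tr s l t → V κ (rho ι α κ l h) = V κ h * q w (lf [l]) := by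
      rintro (_ | _ | p) h l s t a b
      · exact a.elim
      · simp only [V, rho, e2, map_mul, Units.val_mul, mul_assoc, p1]
      · obtain ⟨p', u, rfl, a, rfl⟩ := a
        obtain ⟨p'', rfl, b⟩ := b
        have := tw _ _ _ ((path_snoc ..).2 ⟨_, a, b⟩)
        simp only [V, rho, FreeGroup.mul_mk, tw _ _ _ a, jj]
        rw [← List.map_singleton, ← List.map_append, this, jj, lf_app, q_app, mul_assoc]
    have v4 : ∀ κ h l, E (rho ι α) (Tr' Tr) R κ h l → V κ (rho ι α κ l h) = V κ h * q w (lf [l]) := by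
      rintro κ h l (⟨s, t, a, b⟩ | ⟨s, t, a, b⟩)
      · exact v3 _ _ _ _ _ a b
      · obtain ⟨x, c⟩ := v2 _ _ _ (h2 _ (by simp) _ _ _ _ _ a b)
        rw [v3 _ _ _ _ _ a b, mul_assoc _ (D t)] at c
        have := absorb c
        rw [← v3 _ _ _ _ _ a b, h4] at this
        rw [← this]
        simp [lf, invRev, Prod.map]
    have st : ∀ c x c', Valid 1 R c → dl 1 (rho ι α) (Tr' Tr) R c x = some c' → ev c' = ev c * q w [x] := by
      rintro (_ | ⟨⟨κ, p, t⟩, c⟩) ⟨a | s, b⟩ c' h k
      · cases k
      · cases b <;> cases k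
        simp [ev, v1, U]
      · simp only [dl, Option.ite_none_right_eq_some, Option.some.injEq] at k
        obtain ⟨⟨rfl, k⟩, rfl⟩ := k
        simp [ev, v4 _ _ _ k, lf, mul_assoc]
      cases b
      · simp only [dl, Option.ite_none_right_eq_some] at k
        obtain ⟨⟨rfl, -⟩, k⟩ := k
        split_ifs at k with g <;> cases k
        · obtain ⟨rfl, rfl⟩ := g
          simp [ev, v1, mul_assoc, show U s * q w [(.inr s, false)] = 1 from s1 s]
        · simp [ev, D, mul_assoc]
      · simp only [dl] at k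
        split_ifs at k with g <;> cases k
        · cases g
          obtain ⟨t, a⟩ := v2 _ _ _ (h.1 s rfl).1
          simp [ev, mul_assoc, show V κ p * (D s * q w [(.inr s, true)]) = _ from (mul_assoc ..).symm.trans (aD a)]
        · simp [ev, v1, U]
    have fa : ∀ x c, run (dl 1 (rho ι α) (Tr' Tr) R) [] x = some c → q w x = ev c := fun x => by
      induction x using List.reverseRecOn with
      | nil => rintro _ ⟨⟩; rfl
      | append_singleton x l ih =>
        intro c h
        rw [run_snoc, Option.bind_eq_some_iff] at h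
        obtain ⟨d, a, b⟩ := h
        rw [q_app, ih d a, st d l c (run_inv (dl_inv (h1 _) h4) (c := []) trivial a).1 b]
    have pd : Primrec₂ (dl 1 (rho ι α) (Tr' Tr) R) := by
      refine pr_dl ?_ ?_
      · rintro (_ | _ | p) l
        exacts [pα l, pα l, pr_mul.comp .id (.const _)]
      · rintro (_ | _ | p) s
        · exact pp_const _
        · exact pp_const _
        have a : Primrec fun h : FreeGroup B => h.toWord.map (Prod.map j id) :=
          Primrec.list_map pr_toWord ((Primrec.dom_finite (Prod.map j id)).comp .snd).to₂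
        refine (fin_ex fun p' => (pp_const (s = some p')).and (((pp_path Tr p p').comp a).and (Primrec.eq.comp .id (pr_mk.comp
          (Primrec.list_map a ((Primrec.dom_finite (Prod.map ι id)).comp .snd).to₂))))).of_eq fun h => exists_congr fun p' => ?_
        refine ⟨fun k => ⟨_, k⟩, ?_⟩
        rintro ⟨u, rfl, k, rfl⟩
        simp only [tw _ _ _ k, jj, k, id, and_self]
    refine ((Primrec.eq.comp (Primrec.list_foldl (h := fun _ (p : Option _ × _) => p.1.bind (dl 1 (rho ι α) (Tr' Tr) R · p.2)) .id
      (.const (some [])) ((Primrec.option_bind .fst (pd.comp .snd (Primrec.snd.comp .fst)).to₂).comp .snd).to₂)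
      (.const (some []))).of_eq fun x => ⟨fa x [], fun h => so _ (by simp) x [] h [] trivial⟩).computablePred
  · let W : List ((A ⊕ Option Q) × Bool) := [(.inr none, false), (.inr none, true), (.inr (some q0), false), (.inr (some q0), true)]
    obtain ⟨c, hc, h⟩ := ComputablePred.computable_iff.1 h
    have a : Primrec fun y : List (A × Bool) => W ++ lf y := Primrec.list_append.comp (.const _)
      (Primrec.list_map .id ((Primrec.dom_finite (Prod.map Sum.inl id)).comp .snd).to₂)
    refine ComputablePred.computable_iff.2 ⟨_, hc.comp ((Primrec.list_append.comp a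
      (.const [(.inr (some f), false), (.inr (some f), true)])).pair a).to_comp, funext fun y => ?_⟩
    rw [← congrFun h]
    refine propext ⟨fun ⟨v, h, k⟩ => ?_, fun h => ?_⟩
    · have e1 : q w W = D (some q0) * U (some q0) * (D none * U none) := w2 (w := w) [(.inr none, false)] [(.inr (some q0), false)]
      have e2 : q w (W ++ lf y) = q w (W ++ lf v) := by simp only [q_app, e1, mul_assoc, ← p1, k]
      obtain ⟨t, a⟩ := pa _ _ _ h
      rw [q_app, e2]
      change D none * U none * D (some q0) * U (some q0) * q w (lf v) * (D (some f) * U (some f)) =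
        D none * U none * D (some q0) * U (some q0) * q w (lf v)
      rw [mul_assoc _ (U (some q0)), mul_assoc, ← mul_assoc _ (D (some f)), aD a]
    · let I : FreeGroup B → Option Q → Prop := fun h s => s = none ∨ ∃ p v, s = some p ∧ p ∈ Path Tr q0 v ∧ pi r v = e h
      have hI : ∀ h s l t, I h s → Tr' Tr s l t → I (α l h) t := by
        rintro h s l t (rfl | ⟨p, v, rfl, a, b⟩) k
        · exact .inl k
        · obtain ⟨p', rfl, k⟩ := k
          exact .inr ⟨p', v ++ [l], rfl, (path_snoc ..).2 ⟨_, a, k⟩, by rw [pi_app, b, e2]⟩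
      have := so I hI _ _ h [(none, 1, none)] (by simp [Valid])
      have b : run (dl 1 (rho ι α) (Tr' Tr) (Re ι Tr I)) [(none, 1, none)] W = some [(none, 1, none)] := by
        have : I 1 (some q0) := .inr ⟨q0, [], rfl, rfl, e1.symm⟩
        simp [W, run, dl, Re, this, show I 1 none from .inl rfl]
      have d := (dl_path (o := 1) (κ := none) (p := 1) (c := []) (h2 I hI) (.inl rfl) (hz y)).1
      rw [run_app, run_app, b, Option.bind_some, lf, d, Option.bind_some, run_cons] at this
      obtain ⟨⟨⟩⟩ | ⟨p, v, ⟨⟩, a, b⟩ := dl_down.1 (Option.isSome_iff_exists.2 ((Option.bind_eq_some_iff.1 this).imp fun _ h => h.1))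
      refine ⟨v, a, b.trans ?_⟩
      clear * - e1 e2
      induction y using List.reverseRecOn with
      | nil => exact e1
      | append_singleton y l ih => rw [List.foldl_append, pi_app, ← ih]; exact e2 ..

end Pool.Agent.H.MP_874ce0_al
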