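import Mathlib
import Pool.Agent.H.MP_874ce0_al.M
import Pool.Agent.Lib.helper22.NBa

namespace Pool.Agent.H.MP_874ce0_al

open Pool.Agent.Lib.FGp

def r0 : List (Bool × Bool) :=
  [(true, true), (false, true), (true, true), (false, false), (true, false), (false, true), (true, false), (false, false)]

abbrev G0 := PresentedGroup {FreeGroup.mk r0}

def ga : G0 := PresentedGroup.of true
def gt : G0 := PresentedGroup.of false

theorem pi_cons (l u) : pi r0 (l :: u) = pi r0 [l] * pi r0 u := pi_app r0 [l] u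

theorem rel0 : ga * gt * ga * gt⁻¹ * ga⁻¹ * gt * ga⁻¹ * gt⁻¹ = 1 := PresentedGroup.one_of_mem (rels := {FreeGroup.mk r0}) rfl

theorem cm0 : Commute ga (gt * ga * gt⁻¹) := by
  rw [← commutatorElement_eq_one_iff_commute, commutatorElement_def, ← rel0]
  group

def Gd : List (Bool × Bool) → Prop
  | [] => True
  | l :: w => w.head?.elim (l ≠ (true, false)) (fun l' => l.1 = l'.1 → l.2 = l'.2) ∧ Gd w

theorem pad (g : G0) : ∃ w, Gd ((true, true) :: w) ∧ pi r0 ((true, true) :: w) = g := by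
  obtain ⟨⟨v⟩, rfl⟩ := PresentedGroup.mk_surjective _ g
  change ∃ w, _ ∧ _ = pi r0 v
  let r1 := [(true, true), (false, false), (true, false), (false, true), (true, false), (false, false), (true, true), (false, true)]
  let r2 := [(false, true), (true, false), (false, false), (true, false), (false, true), (true, true), (false, false), (true, true)]
  have e0 : pi r0 r0 = 1 := rel0
  have e1 : pi r0 r1 = 1 := by
    calc _ = ga * gt⁻¹ * ga⁻¹ * gt * ga⁻¹ * gt⁻¹ * ga * gt := rfl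
      _ = (ga * gt)⁻¹ * (ga * gt * ga * gt⁻¹ * ga⁻¹ * gt * ga⁻¹ * gt⁻¹) * (ga * gt) := by group
      _ = 1 := by rw [rel0]; group
  have e2 : pi r0 r2 = 1 := by
    calc _ = gt * ga⁻¹ * gt⁻¹ * ga⁻¹ * gt * ga * gt⁻¹ * ga := rfl
      _ = (ga * (gt * ga * gt⁻¹))⁻¹ * (gt * ga * gt⁻¹ * ga) := by group
      _ = 1 := by rw [cm0.eq, inv_mul_cancel]
  induction v with
  | nil => exact ⟨r0.tail, by simp [Gd, r0], e0⟩
  | cons l v ih =>
    obtain ⟨w, a, b⟩ := ih
    rw [pi_cons l, ← b]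
    obtain ⟨_ | _, _ | _⟩ := l
    · exact ⟨r0.tail ++ (false, false) :: (true, true) :: w, by simpa [Gd, r0] using a,
        (pi_app r0 r0 _).trans (by rw [e0, one_mul, pi_cons])⟩
    · exact ⟨r1.tail ++ (false, true) :: (true, true) :: w, by simpa [Gd, r1] using a,
        (pi_app r0 r1 _).trans (by rw [e1, one_mul, pi_cons])⟩
    · exact ⟨r0.tail ++ (true, false) :: (r2 ++ (true, true) :: w), by simpa [Gd, r0, r2] using a,
        (pi_app r0 r0 _).trans (by rw [e0, one_mul, pi_cons, pi_app, e2, one_mul])⟩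
    · exact ⟨(true, true) :: w, by simpa [Gd] using a, pi_cons ..⟩

inductive MP {S : Type} (T : S → G0 → S → Prop) (s : S) : G0 → S → Prop
  | base : MP T s 1 s
  | step {h p k p'} : MP T s h p → T p k p' → MP T s (k * h) p'

theorem letters {S : Type} [Finite S] (T : S → G0 → S → Prop) (hT : {k | ∃ p p', T p k p'}.Finite) (s f : S) :
    ∃ (Q : Type) (_ : Finite Q) (Tr : Q → Bool × Bool → Q → Prop) (q0 q1 : Q),
      (∀ s l s' l' s'', Tr s l s' → Tr s' l' s'' → l.1 = l'.1 → l.2 = l'.2) ∧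
      ∀ g, (∃ v, q1 ∈ Path Tr q0 v ∧ pi r0 v = g) ↔ MP T s g⁻¹ f := by
  choose lb l1 l2 using pad
  obtain ⟨N, hN⟩ := (hT.image fun k => (lb k⁻¹).length).bddAbove
  have : Finite {w : List (Bool × Bool) // w.length ≤ N} := (List.finite_length_le (Bool × Bool) N).to_subtype
  let Q := {w : List (Bool × Bool) // w.length ≤ N} × S
  let Tr : Q → Bool × Bool → Q → Prop := fun a l b => Gd (l :: b.1.1) ∧ (a.1.1 = l :: b.1.1 ∧ a.2 = b.2 ∨
    a.1.1 = [] ∧ l = (true, true) ∧ T a.2 (pi r0 (l :: b.1.1))⁻¹ b.2)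
  let o : S → Q := fun p => (⟨[], Nat.zero_le _⟩, p)
  refine ⟨Q, inferInstance, Tr, o s, o f, ?_, fun g => ⟨fun ⟨v, h, e⟩ => ?_, fun h => ?_⟩⟩
  · rintro - l ⟨⟨w, _⟩, p⟩ l' s'' ⟨⟨a, -⟩, -⟩ ⟨-, ⟨rfl, -⟩ | ⟨rfl, rfl, -⟩⟩
    · exact a
    · obtain ⟨_ | _, _ | _⟩ := l <;> simp at a ⊢
  · suffices ∀ x ∈ Path Tr (o s) v, MP T s (pi r0 (v ++ x.1.1))⁻¹ x.2 by simpa [o, e] using this _ h
    clear h e
    induction v using List.reverseRecOn with
    | nil => rintro _ rfl; exact .base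
    | append_singleton v l ih =>
      intro x h
      obtain ⟨y, a, -, ⟨b, c⟩ | ⟨b, -, c⟩⟩ := (path_snoc ..).1 h
      · simpa [b, c] using ih y a
      · have := (ih y a).step c
        rwa [b, List.append_nil, ← mul_inv_rev, ← pi_app, List.append_cons] at this
  · rw [← inv_inv g]
    generalize g⁻¹ = g at h
    induction h with
    | base => exact ⟨[], rfl, rfl⟩
    | @step h p k p' _ b ih =>
      obtain ⟨v, a, e⟩ := ih
      have : ∀ w hw u, Gd w → (⟨w, hw⟩, p') ∈ Path Tr (o s) u → o p' ∈ Path Tr (o s) (u ++ w) := fun w => by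
        induction w with
        | nil => exact fun _ u _ h => (List.append_nil u).symm ▸ h
        | cons l w ih =>
          intro hw u c h
          rw [List.append_cons]
          exact ih (Nat.le_of_succ_le hw) _ c.2 ((path_snoc ..).2 ⟨_, h, c, .inl ⟨rfl, rfl⟩⟩)
      exact ⟨_, this (lb k⁻¹) (hN ⟨k, ⟨_, _, b⟩, rfl⟩) _ (l1 _).2 ((path_snoc ..).2 ⟨_, a, l1 _, .inr ⟨rfl, rfl, by simpa [l2] using b⟩⟩),
        by rw [← List.append_cons, pi_app, e, l2, mul_inv_rev]⟩

theorem zp {Ω : Type} (f : Equiv.Perm Ω) (F : ℤ → Ω) (h : ∀ k, f (F k) = F (k + 1)) (k : ℤ) : (f ^ k) (F 0) = F k := by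
  induction k using Int.induction_on with
  | zero => rfl
  | succ k ih => rw [add_comm, zpow_add, zpow_one, Equiv.Perm.mul_apply, ih, h, add_comm]
  | pred k ih => rw [sub_eq_neg_add, zpow_add, Equiv.Perm.mul_apply, ih, zpow_neg_one, Equiv.Perm.inv_eq_iff_eq, h]; congr 1; ring

abbrev Om := ℤ × ℤ × (ℤ → ℤ) × (ℤ → ℤ)

def sg (i k : ℤ) (x : Om) : Om := (x.1 + if i = 0 then k else 0, x.2.1 + if i = 3 then k else 0,
  x.2.2.1 + Pi.single x.2.1 (if i = 1 then k else 0), x.2.2.2 + Pi.single x.1 (if i = 2 then k else 0))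

theorem sg_add (i k l x) : sg i k (sg i l x) = sg i (l + k) x := by
  simp only [sg]
  split_ifs <;> first | omega | simp [add_assoc, Pi.single_add]

theorem sg_zero (i x) : sg i 0 x = x := by simp [sg]

def pA : Equiv.Perm (ℤ × Om) := ⟨fun x => (x.1, sg x.1 1 x.2), fun x => (x.1, sg x.1 (-1) x.2),
  fun x => by simp [sg_add, sg_zero], fun x => by simp [sg_add, sg_zero]⟩
def pT : Equiv.Perm (ℤ × Om) := (Equiv.addRight 1).prodCongr (.refl _)

def ph : G0 →* Equiv.Perm (ℤ × Om) := PresentedGroup.toGroup (f := fun x => cond x pA pT) (by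
  rintro _ rfl
  ext1 ⟨i, x⟩
  simp only [r0, FreeGroup.lift_mk, List.map, List.prod_cons, cond, Equiv.Perm.mul_apply, Equiv.Perm.inv_def]
  simp [pA, pT, sg]
  split_ifs <;> first | omega | simp [add_assoc, ← Pi.single_add])

def gi (i : ℤ) : G0 := (gt ^ i)⁻¹ * ga * gt ^ i

theorem cm (i : ℤ) : Commute (gi (i + 1)) (gi i) := by
  have := cm0.map (MulAut.conj (gt ^ (i + 1))⁻¹)
  convert this using 1 <;> simp only [gi, MulAut.conj_apply] <;> group

theorem ph_gi (i k : ℤ) (x : Om) : ph (gi i ^ k) (0, x) = (0, sg i k x) := by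
  have a : ∀ y, ph (gt ^ i) (0, y) = (i, y) := fun y => by
    rw [map_zpow]
    exact zp _ (fun k => (k, y)) (by simp [ph, gt, pT]) i
  rw [map_zpow, ← sg_zero i x, zp _ (fun k => (0, sg i k x)), sg_zero]
  intro k
  rw [gi, map_mul, map_mul, map_inv, Equiv.Perm.mul_apply, Equiv.Perm.mul_apply, a, Equiv.Perm.inv_eq_iff_eq, a]
  simp [ph, ga, pA, sg_add]

theorem MP.loop {S : Type} {T : S → G0 → S → Prop} {s p g} (a : T p g p) (b : T p g⁻¹ p) {h} (k : MP T s h p) (n : ℤ) :
    MP T s (g ^ n * h) p := by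
  induction n using Int.induction_on with
  | zero => simpa using k
  | succ n ih => simpa only [add_comm (n : ℤ), zpow_add, zpow_one, mul_assoc] using ih.step a
  | pred n ih => simpa only [sub_eq_neg_add, zpow_add, zpow_neg_one, mul_assoc] using ih.step b

theorem rat : ∃ (Q : Type) (_ : Finite Q) (Tr : Q → Bool × Bool → Q → Prop) (q0 q1 : Q),
    (∀ s l s' l' s'', Tr s l s' → Tr s' l' s'' → l.1 = l'.1 → l.2 = l'.2) ∧
    ¬ ComputablePred fun y => ∃ v, q1 ∈ Path Tr q0 v ∧ pi r0 v = pi r0 y := by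
  obtain ⟨J, _, m, n, a, c, O, s, hs, -, hO, h0, hE, hu⟩ := Pool.Agent.Lib.NB.exists_col
  let M : J × Bool → ℤ := fun i => cond i.2 (m i.1) (n i.1)
  let N : J × Bool → ℤ := fun i => cond i.2 (n i.1) (m i.1)
  let A : J × Bool → ℤ := fun i => cond i.2 (a i.1) (c i.1)
  let C : J × Bool → ℤ := fun i => cond i.2 (c i.1) (a i.1)
  have cl : ∀ i u, N i * u + C i ∈ O → M i * u + A i ∈ O := by
    rintro ⟨j, _ | _⟩ u
    exacts [(hO j u).1, (hO j u).2]
  let g : J × Bool → G0 := fun i => gi 1 ^ M i * gi 2 ^ N i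
  let R : Set (Option (Option (J × Bool)) × G0 × Option (Option (J × Bool))) :=
    {(none, gi 1 * gi 2, none), (none, (gi 1 * gi 2)⁻¹, none), (none, gi 3 * gi 0, none), (none, 1, some none)} ∪
    ⋃ i, {(some none, (gi 3)⁻¹, some (some i)), (some (some i), g i, some (some i)), (some (some i), (g i)⁻¹, some (some i)),
      (some (some i), (gi 0)⁻¹ * gi 1 ^ (-A i) * gi 2 ^ (-C i), some none)}
  obtain ⟨Q, _, Tr, q0, q1, loc, h⟩ := letters (fun p k p' => (p, k, p') ∈ R)
    ((((Set.toFinite _).union (Set.finite_iUnion fun _ => Set.toFinite _) : R.Finite).image (·.2.1)).subset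
      fun k ⟨_, _, h⟩ => ⟨_, h, rfl⟩) none (some none)
  have c10 : Commute (gi 1) (gi 0) := cm 0
  have c21 : Commute (gi 2) (gi 1) := cm 1
  have c32 : Commute (gi 3) (gi 2) := cm 2
  have gp : ∀ i (u : ℤ), g i ^ u = gi 1 ^ (M i * u) * gi 2 ^ (N i * u) := fun i u => by
    rw [(c21.symm.zpow_zpow _ _).mul_zpow, ← zpow_mul, ← zpow_mul]
  have key : ∀ k : ℤ, MP (fun p k p' => (p, k, p') ∈ R) none (gi 2 ^ k) (some none) ↔ k ∈ O := fun k => ⟨fun h => ?_, fun h => ?_⟩
  · refine ⟨Q, ‹_›, Tr, q0, q1, loc, fun hc => hu ?_⟩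
    obtain ⟨w, -, hw⟩ := pad (gi 2)⁻¹
    obtain ⟨b, hb, e⟩ := ComputablePred.computable_iff.1 hc
    refine ComputablePred.computable_iff.2 ⟨_, hb.comp (Primrec.list_flatMap (Primrec.list_range.comp hs)
      (Primrec.const ((true, true) :: w)).to₂).to_comp, funext fun k => ?_⟩
    rw [← congrFun e, h, ← key]
    congr 1
    generalize (true, true) :: w = w at hw
    induction s k with
    | zero => rfl
    | succ k ih => rw [List.range_succ, List.flatMap_append, pi_app, mul_inv_rev, ← ih, List.flatMap_singleton, hw, inv_inv,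
        Nat.cast_succ, add_comm, zpow_one_add]
  · let F : G0 → Prop := fun h => ∃ p fb fc, ph h (0, 0) = (0, p, p, fb, fc) ∧ (∀ i < p, fb i = fc i) ∧
      ((∀ i > p, fc i = 0) → (∀ i ≥ p, fb i = 0) → fc p ∈ O)
    have p1 : ∀ i x, ph (gi i) (0, x) = (0, sg i 1 x) := fun i x => by simpa using ph_gi i 1 x
    have p2 : ∀ i x, (ph (gi i))⁻¹ (0, x) = (0, sg i (-1) x) := fun i x => by simpa using ph_gi i (-1) x
    suffices ∀ h p, MP (fun p k p' => (p, k, p') ∈ R) none h p → p.elim (∃ p f, ph h (0, 0) = (0, p, p, f, f))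
        fun p => p.elim (F h) fun i => ∃ (u : ℤ) (x : G0), F x ∧ h = g i ^ u * (gi 3)⁻¹ * x by
      obtain ⟨p, fb, fc, e, -, b⟩ := this _ _ h
      rw [ph_gi] at e
      simp only [sg, Prod.mk.injEq] at e
      obtain ⟨-, rfl, -, rfl, rfl⟩ := e
      simpa using b (fun i hi => by simp at hi; simp [hi.ne']) (by simp)
    intro h p k
    induction k with
    | base => exact ⟨0, 0, rfl⟩
    | @step h p k p' _ b ih =>
      simp only [R, Set.mem_union, Set.mem_iUnion, Set.mem_insert_iff, Set.mem_singleton_iff, Prod.mk.injEq] at b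
      obtain (⟨rfl, rfl, rfl⟩ | ⟨rfl, rfl, rfl⟩ | ⟨rfl, rfl, rfl⟩ | ⟨rfl, rfl, rfl⟩) |
        ⟨i, ⟨rfl, rfl, rfl⟩ | ⟨rfl, rfl, rfl⟩ | ⟨rfl, rfl, rfl⟩ | ⟨rfl, rfl, rfl⟩⟩ := b
      · obtain ⟨p, f, e⟩ := ih
        exact ⟨p, _, by simp [e, p1, sg]; rfl⟩
      · obtain ⟨p, f, e⟩ := ih
        exact ⟨p, f + Pi.single p (-1), by simp only [mul_inv_rev, map_mul, map_inv, Equiv.Perm.mul_apply, e, p2]; simp [sg]⟩
      · obtain ⟨p, f, e⟩ := ih
        exact ⟨p + 1, f, by simp [e, p1, sg]⟩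
      · obtain ⟨p, f, e⟩ := ih
        exact ⟨p, f, f, by simpa using e, fun _ _ => rfl, fun _ h => h p le_rfl ▸ h0⟩
      · exact ⟨0, h, ih, by simp⟩
      · obtain ⟨u, x, a, rfl⟩ := ih
        exact ⟨1 + u, x, a, by simp only [zpow_add, zpow_one, mul_assoc]⟩
      · obtain ⟨u, x, a, rfl⟩ := ih
        exact ⟨-1 + u, x, a, by simp only [zpow_add, zpow_neg_one, mul_assoc]⟩
      · obtain ⟨u, x, ⟨p, fb, fc, e, a, b⟩, rfl⟩ := ih
        refine ⟨p + -1, fb + Pi.single (p + -1) (M i * u) + Pi.single (p + -1) (-A i), fc + Pi.single p (N i * u) + Pi.single p (-C i), ?_,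
          fun j hj => ?_, fun h1 h2 => ?_⟩
        · simp only [gp, map_mul, map_inv, Equiv.Perm.mul_apply, e, p2, ph_gi]
          simp [sg]
        · simp [hj.ne, show j ≠ p by omega, a j (by omega)]
        · have e1 := h1 p (by omega)
          have e2 := h2 _ le_rfl
          have e3 := cl i (-u) (by
            convert b (fun j hj => by simpa [hj.ne'] using h1 j (by omega)) fun j hj => by simpa [show j ≠ p + -1 by omega] using h2 j (by omega) using 1
            simp at e1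
            linarith)
          convert e3 using 1
          simp [← a (p + -1) (by omega)] at e2 ⊢
          linarith
  · let P : ℤ → Prop := fun k => ∀ h, MP (fun p k p' => (p, k, p') ∈ R) none h none →
      MP (fun p k p' => (p, k, p') ∈ R) none (gi 2 ^ k * h) (some none)
    have st : ∀ i u, P (N i * u + C i) → P (M i * u + A i) := fun i u hP h k => by
      have := ((((hP _ ((k.loop (g := gi 1 * gi 2) (by simp [R]) (by simp [R]) (M i * u + A i)).step (k := gi 3 * gi 0) (by simp [R]))).step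
        (k := (gi 3)⁻¹) (p' := some (some i)) (by simp [R])).loop (g := g i) (.inr (Set.mem_iUnion.2 ⟨i, by simp⟩))
          (.inr (Set.mem_iUnion.2 ⟨i, by simp⟩)) (-u)).step
          (k := (gi 0)⁻¹ * gi 1 ^ (-A i) * gi 2 ^ (-C i)) (p' := some none) (.inr (Set.mem_iUnion.2 ⟨i, by simp⟩)))
      convert this using 1
      rw [gp, c21.symm.mul_zpow]
      calc _ = (gi 0)⁻¹ * (gi 0 * gi 1 ^ (-(M i * u + A i))) * gi 1 ^ (M i * u + A i) * gi 2 ^ (M i * u + A i) * h := by group
        _ = (gi 0)⁻¹ * gi 1 ^ (-A i) * (gi 1 ^ (M i * -u) * gi 2 ^ (-C i)) * gi 2 ^ (N i * -u) * (gi 3)⁻¹ *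
          (gi 3 * gi 2 ^ (N i * u + C i)) * gi 0 * gi 1 ^ (M i * u + A i) * gi 2 ^ (M i * u + A i) * h := by
            rw [← (c10.zpow_left _).eq]; group
        _ = _ := by rw [← (c21.zpow_zpow _ _).eq, (c32.zpow_right _).eq]; simp only [mul_assoc]
    have : ∀ x y, Relation.EqvGen (fun x y => ∃ j u, x = m j * u + a j ∧ y = n j * u + c j) x y → (P x ↔ P y) := fun x y h => by
      induction h with
      | rel _ _ h => obtain ⟨j, u, rfl, rfl⟩ := h; exact ⟨st (j, false) u, st (j, true) u⟩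
      | refl => rfl
      | symm _ _ _ h => exact h.symm
      | trans _ _ _ _ _ h k => exact h.trans k
    simpa using (this _ _ (hE k h)).2 (fun h k => k.step (by simp [R])) 1 .base

open FreeGroup in
theorem wp : ∃ (α : Bool × Bool → FreeGroup (Option Bool) → FreeGroup (Option Bool)) (e : FreeGroup (Option Bool) → G0),
    (∀ l, Primrec (α l)) ∧ (∀ l h, α (l.1, !l.2) (α l h) = h) ∧ (∀ h, r0.foldl (fun h l => α l h) h = h) ∧ e 1 = 1 ∧
    ∀ l h, e (α l h) = e h * pi r0 [l] := by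
  let θ : FreeGroup (Option Bool) →* FreeGroup (Option Bool) :=
    lift fun x => x.elim (of none) fun b => cond b (of (some true)) (of none * of (some false))
  let η : FreeGroup (Option Bool) →* FreeGroup (Option Bool) :=
    lift fun x => x.elim (of none) fun b => cond b (of (some true)) ((of none)⁻¹ * of (some false))
  let ev : FreeGroup (Option Bool) →* G0 := lift fun x => x.elim (ga * gt * ga⁻¹ * gt⁻¹) fun b => cond b ga gt
  have a : ∀ h, θ (η h) = h := DFunLike.congr_fun (show θ.comp η = .id _ by ext (_ | _ | _) <;> simp [θ, η])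
  have b : ∀ h, η (θ h) = h := DFunLike.congr_fun (show η.comp θ = .id _ by ext (_ | _ | _) <;> simp [θ, η])
  have c : ∀ h, ev (θ h) = ga * ev h * ga⁻¹ := DFunLike.congr_fun (show ev.comp θ = (MulAut.conj ga).toMonoidHom.comp ev by
    ext (_ | _ | _)
    · suffices ga * (gt * ga * gt⁻¹)⁻¹ = ga * (ga * (gt * ga * gt⁻¹)⁻¹) * ga⁻¹ by simpa [θ, ev, mul_assoc] using this
      conv_rhs => rw [cm0.inv_right.eq]
      group
    all_goals simp [θ, ev])
  have t1 : θ (of (some true)) = of (some true) := by simp [θ]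
  have t2 : θ (of none) = of none := by simp [θ]
  have t3 : θ (of (some false)) = of none * of (some false) := by simp [θ]
  have t4 : η (of (some true)) = of (some true) := by simp [η]
  have t5 : η (of (some false)) = (of none)⁻¹ * of (some false) := by simp [η]
  refine ⟨fun l h => cond l.1 (cond l.2 (η h * (of (some true))⁻¹) (θ h * of (some true)))
    (cond l.2 ((of (some false))⁻¹ * h) (of (some false) * h)), fun h => (ev h)⁻¹, ?_, ?_, fun h => ?_, by simp, ?_⟩
  · rintro ⟨_ | _, _ | _⟩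
    exacts [pr_mul.comp (.const _) .id, pr_mul.comp (.const _) .id, pr_mul.comp (pr_hom θ) (.const _), pr_mul.comp (pr_hom η) (.const _)]
  · rintro ⟨_ | _, _ | _⟩ h <;> simp [a, b, t1, t4]
  · simp [r0, a, t1, t2, t3, t4, t5, mul_assoc]
  · have d : ∀ h, ev (η h) = ga⁻¹ * ev h * ga := fun h => by rw [← a h, b, c]; group
    have e1 : ev (of (some true)) = ga := by simp [ev]
    have e2 : ev (of (some false)) = gt := by simp [ev]
    rintro ⟨_ | _, _ | _⟩ h <;> simp [c, d, e1, e2] <;> rfl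

end Pool.Agent.H.MP_874ce0_al
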